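import Mathlib
import Pool.Agent.Helper29.HP.St.Six
import Pool.Agent.Helper89.OS.Defs

namespace Pool.Agent.Helper29.HP.Six
end Pool.Agent.Helper29.HP.Six

set_option autoImplicit false

namespace Pool.Agent.Helper98.OS

open MvPolynomial Pool.Agent.Helper29.HP Pool.Agent.Helper29.HP.Six Pool.Agent.Helper89.OS

/-- a linear change of coordinates moving the common zeros away from `x₀ = 0` -/
structure Chg (δ μ : P3) (a b : (Fin 3 → ℂ) →ₗ[ℂ] (Fin 3 → ℂ)) : Prop where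
  hba : ∀ p, lsub b (lsub a p) = p
  hab : ∀ p, lsub a (lsub b p) = p
  ha0 : ∀ z, a z = 0 → z = 0
  hsm : ∀ z : Fin 3 → ℂ, z ≠ 0 → eval z (lsub a δ) = 0 → ∃ i, eval z (pderiv i (lsub a δ)) ≠ 0
  hnd : ¬ lsub a δ ∣ lsub a μ
  hinf : ∀ z : Fin 3 → ℂ, z ≠ 0 → z 0 = 0 → eval z (lsub a δ) = 0 → eval z (lsub a μ) ≠ 0

theorem exists_chg {δ μ : P3} {d : ℕ} (hδ : δ.IsHomogeneous 6)
    (hsm : ∀ z : Fin 3 → ℂ, z ≠ 0 → eval z δ = 0 → ∃ i, eval z (pderiv i δ) ≠ 0)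
    (hμ : μ.IsHomogeneous d) (hμδ : ¬ δ ∣ μ) : ∃ a b, Chg δ μ a b := by
  classical
  have hirr : Irreducible δ := irreducible_of_smooth (by norm_num) hδ hsm
  have hrel : IsRelPrime δ μ := hirr.isRelPrime_iff_not_dvd.mpr hμδ
  have hμ0 : μ ≠ 0 := by
    rintro rfl
    exact hμδ (dvd_zero _)
  obtain ⟨l, hl, hav⟩ := Pool.Agent.Helper29.TR.exists_lin_avoid hδ hμ hrel hμ0
  obtain ⟨φ, hφ⟩ := exists_lequiv hl
  let a : (Fin 3 → ℂ) →ₗ[ℂ] (Fin 3 → ℂ) := φ.symm.toLinearMap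
  let b : (Fin 3 → ℂ) →ₗ[ℂ] (Fin 3 → ℂ) := φ.toLinearMap
  have hab : ∀ z, a (b z) = z := φ.symm_apply_apply
  have hba : ∀ z, b (a z) = z := φ.apply_symm_apply
  have h1 : ∀ p, lsub b (lsub a p) = p := lsub_lsub hab
  have h2 : ∀ p, lsub a (lsub b p) = p := lsub_lsub hba
  have ha0 : ∀ z, a z = 0 → z = 0 := by
    intro z hz
    rw [← hba z, hz, map_zero]
  refine ⟨a, b, h1, h2, ha0, ?_, ?_, ?_⟩
  · intro z hz hzδ
    rw [eval_lsub] at hzδ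
    obtain ⟨j, hj⟩ := hsm (a z) (fun h => hz (ha0 z h)) hzδ
    by_contra hcon
    push Not at hcon
    apply hj
    let g : (Fin 3 → ℂ) →ₗ[ℂ] ℂ := ∑ j, (eval (a z) (pderiv j δ)) • LinearMap.proj j
    have hg : ∀ w, g w = ∑ j, eval (a z) (pderiv j δ) * w j := by
      intro w
      simp [g, LinearMap.sum_apply]
    have hg0 : g ∘ₗ a = 0 := by
      refine LinearMap.pi_ext' fun i => ?_
      ext
      have := hcon i
      rw [eval_pderiv_lsub, ← hg] at this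
      simpa using this
    have hg1 : g (Pi.single j 1) = 0 := by
      rw [← hab (Pi.single j 1)]
      exact LinearMap.congr_fun hg0 (b (Pi.single j 1))
    rw [hg, Finset.sum_eq_single j] at hg1
    · simpa using hg1
    · intro i _ hi
      rw [Pi.single_eq_of_ne hi, mul_zero]
    · intro h
      exact absurd (Finset.mem_univ j) h
  · intro hd
    have := map_dvd (lsub b) hd
    rw [h1, h1] at this
    exact hμδ this
  · intro z hz hz0 hzδ hzh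
    rw [eval_lsub] at hzδ hzh
    apply hz
    apply ha0
    refine hav (a z) ?_ hzδ hzh
    rw [← hφ]
    change b (a z) 0 = 0
    rw [hba, hz0]

theorem mem_Imd {μ δ p : P3} : p ∈ Imd μ δ ↔ ∃ t r, p = μ * t + δ * r := by
  rw [Imd, Ideal.mem_span_pair]
  constructor
  · rintro ⟨t, r, h⟩
    exact ⟨t, r, by rw [← h]; ring⟩
  · rintro ⟨t, r, h⟩
    exact ⟨t, r, by rw [h]; ring⟩

theorem map_Imd {μ δ p : P3} (φ : P3 →ₐ[ℂ] P3) (h : p ∈ Imd μ δ) : φ p ∈ Imd (φ μ) (φ δ) := by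
  rw [mem_Imd] at h ⊢
  obtain ⟨t, r, h⟩ := h
  exact ⟨φ t, φ r, by rw [h, map_add, map_mul, map_mul]⟩

theorem Imd_eq (μ δ : P3) : Imd μ δ = Ideal.span {δ, μ} := by rw [Imd, Set.pair_comm]

/-- the affine ideal detects the homogeneous one -/
theorem mem_of_dh2 {δ μ p : P3} {d a : ℕ} (hδ : δ.IsHomogeneous 6)
    (hsm : ∀ z : Fin 3 → ℂ, z ≠ 0 → eval z δ = 0 → ∃ i, eval z (pderiv i δ) ≠ 0)
    (hμ : μ.IsHomogeneous d)
    (hinf : ∀ z : Fin 3 → ℂ, z ≠ 0 → z 0 = 0 → eval z δ = 0 → eval z μ ≠ 0)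
    (hp : p.IsHomogeneous a) (hmem : dh2 p ∈ Ideal.span {dh2 δ, dh2 μ}) : p ∈ Imd μ δ := by
  have hirr : Irreducible δ := irreducible_of_smooth (by norm_num) hδ hsm
  have h0 : ¬ X 0 ∣ δ := not_X_dvd hirr hδ
  have hne : rh δ ≠ 0 := fun h => h0 (rh_eq_zero h)
  have hrr : IsRelPrime (rh δ) (rh μ) := rh_rel hδ h0 hinf
  obtain ⟨N, hN⟩ := mem_of_dh2_mem hδ hμ hp hmem
  rw [Imd_eq]
  exact mem_of_X_pow_mul hne hrr N hN

theorem sq_mem_affine {δ μ p q q' : P3} {d a : ℕ} (hδ : δ.IsHomogeneous 6)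
    (hsm : ∀ z : Fin 3 → ℂ, z ≠ 0 → eval z δ = 0 → ∃ i, eval z (pderiv i δ) ≠ 0)
    (hμ : μ.IsHomogeneous d)
    (hinf : ∀ z : Fin 3 → ℂ, z ≠ 0 → z 0 = 0 → eval z δ = 0 → eval z μ ≠ 0)
    (hp : p.IsHomogeneous a) (h : δ ∣ p ^ 2 - q * q') (h1 : q ∈ Imd μ δ)
    (h2 : q' ∈ Imd μ δ) : p ∈ Imd μ δ := by
  have hirr : Irreducible δ := irreducible_of_smooth (by norm_num) hδ hsm
  have h0 : ¬ X 0 ∣ δ := not_X_dvd hirr hδ
  have hf : Irreducible (dh2 δ) := irreducible_dh2 hδ hirr h0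
  have hprime : (Ideal.span {dh2 δ} : Ideal P2).IsPrime :=
    (Ideal.span_singleton_prime hf.ne_zero).2 hf.prime
  have hded : IsDedekindDomain (P2 ⧸ Ideal.span {dh2 δ}) :=
    dedekind_of_smooth (dh2 δ) hf (smooth_dh2 hδ hsm)
  refine mem_of_dh2 hδ hsm hμ hinf hp ?_
  let π : P2 →+* P2 ⧸ Ideal.span {dh2 δ} := Ideal.Quotient.mk (Ideal.span {dh2 δ})
  have hπ : Function.Surjective π := Ideal.Quotient.mk_surjective
  have hπ0 : ∀ x, π x = 0 ↔ dh2 δ ∣ x := by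
    intro x
    rw [show π x = Ideal.Quotient.mk (Ideal.span {dh2 δ}) x from rfl,
      Ideal.Quotient.eq_zero_iff_mem, Ideal.mem_span_singleton]
  obtain ⟨t, r, hq⟩ := mem_Imd.1 h1
  obtain ⟨t', r', hq'⟩ := mem_Imd.1 h2
  have hδ0 : π (dh2 δ) = 0 := (hπ0 _).2 dvd_rfl
  have e1 : π (dh2 q) = π (dh2 μ) * π (dh2 t) := by
    rw [hq, map_add, map_mul, map_mul, map_add, map_mul, map_mul, hδ0, zero_mul, add_zero]
  have e2 : π (dh2 q') = π (dh2 μ) * π (dh2 t') := by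
    rw [hq', map_add, map_mul, map_mul, map_add, map_mul, map_mul, hδ0, zero_mul, add_zero]
  have e3 : π (dh2 p) ^ 2 = π (dh2 q) * π (dh2 q') := by
    have h3 := (hπ0 _).2 (map_dvd dh2 h)
    rw [map_sub, map_pow, map_mul, map_sub, map_pow, map_mul] at h3
    exact sub_eq_zero.1 h3
  have h4 : π (dh2 μ) ^ 2 ∣ π (dh2 p) ^ 2 := by
    rw [e3, e1, e2]
    exact ⟨π (dh2 t) * π (dh2 t'), by ring⟩
  rw [IsIntegrallyClosed.pow_dvd_pow_iff two_ne_zero] at h4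
  obtain ⟨s', hs'⟩ := h4
  obtain ⟨s, rfl⟩ := hπ s'
  have h5 : π (dh2 p - dh2 μ * s) = 0 := by rw [map_sub, map_mul, hs', sub_self]
  obtain ⟨u, hu⟩ := (hπ0 _).1 h5
  rw [Ideal.mem_span_pair]
  exact ⟨u, s, by linear_combination -hu⟩

theorem sq_mem {δ μ p q q' : P3} {d a : ℕ} (hδ : δ.IsHomogeneous 6)
    (hsm : ∀ z : Fin 3 → ℂ, z ≠ 0 → eval z δ = 0 → ∃ i, eval z (pderiv i δ) ≠ 0)
    (hμ : μ.IsHomogeneous d) (hμδ : ¬ δ ∣ μ) (hp : p.IsHomogeneous a)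
    (h : δ ∣ p ^ 2 - q * q') (h1 : q ∈ Imd μ δ) (h2 : q' ∈ Imd μ δ) :
    p ∈ Imd μ δ := by
  obtain ⟨a, b, hab⟩ := exists_chg hδ hsm hμ hμδ
  have key := sq_mem_affine (lsub_hom a hδ) hab.hsm (lsub_hom a hμ) hab.hinf
    (lsub_hom a hp) (q := lsub a q) (q' := lsub a q') (by
      have := map_dvd (lsub a) h
      rwa [map_sub, map_pow, map_mul] at this) (map_Imd _ h1) (map_Imd _ h2)
  have := map_Imd (lsub b) key
  rwa [hab.hba, hab.hba, hab.hba] at this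

theorem adj_id {R : Type*} [CommRing R] (A : Matrix (Fin 3) (Fin 3) R) (hA : A.IsSymm)
    (a b : Fin 3 → R) :
    (a ⬝ᵥ A.mulVec b) ^ 2 - (a ⬝ᵥ A.mulVec a) * (b ⬝ᵥ A.mulVec b) =
      - (crossProduct a b ⬝ᵥ A.adjugate.mulVec (crossProduct a b)) := by
  have e10 : A 1 0 = A 0 1 := hA.apply 0 1
  have e20 : A 2 0 = A 0 2 := hA.apply 0 2
  have e21 : A 2 1 = A 1 2 := hA.apply 1 2
  rw [Matrix.adjugate_fin_three, cross_apply]
  simp [Matrix.mulVec, dotProduct, Fin.sum_univ_three, e10, e20, e21]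
  ring

theorem dot_comm_symm (A : Matrix (Fin 3) (Fin 3) P3) (hA : A.IsSymm) (a b : Fin 3 → P3) :
    a ⬝ᵥ A.mulVec b = b ⬝ᵥ A.mulVec a := by
  rw [Matrix.dotProduct_mulVec, ← Matrix.mulVec_transpose, hA.eq, dotProduct_comm]

theorem hom_dot {A : Matrix (Fin 3) (Fin 3) P3} {k n n' : ℕ} {a b : Fin 3 → P3}
    (hA : ∀ i j, (A i j).IsHomogeneous k) (ha : ∀ i, (a i).IsHomogeneous n)
    (hb : ∀ i, (b i).IsHomogeneous n') : (a ⬝ᵥ A.mulVec b).IsHomogeneous (n + (k + n')) := by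
  refine IsHomogeneous.sum _ _ _ fun i _ => (ha i).mul ?_
  exact IsHomogeneous.sum _ _ _ fun j _ => (hA i j).mul (hb j)

theorem hom_adj {M : Matrix (Fin 3) (Fin 3) P3} (hM : ∀ i j, (M i j).IsHomogeneous 2)
    (i j : Fin 3) : (M.adjugate i j).IsHomogeneous 4 := by
  have h : ∀ i j k l, (M i j * M k l).IsHomogeneous 4 := fun i j k l => (hM i j).mul (hM k l)
  have h1 : ∀ i j k l i' j' k' l', (M i j * M k l - M i' j' * M k' l').IsHomogeneous 4 :=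
    fun i j k l i' j' k' l' => (h i j k l).sub (h i' j' k' l')
  have h2 : ∀ i j k l i' j' k' l', (-(M i j * M k l) + M i' j' * M k' l').IsHomogeneous 4 :=
    fun i j k l i' j' k' l' => (h i j k l).neg.add (h i' j' k' l')
  rw [Matrix.adjugate_fin_three]
  fin_cases i <;> fin_cases j
  · exact h1 1 1 2 2 1 2 2 1
  · exact h2 0 1 2 2 0 2 2 1
  · exact h1 0 1 1 2 0 2 1 1
  · exact h2 1 0 2 2 1 2 2 0
  · exact h1 0 0 2 2 0 2 2 0
  · exact h2 0 0 1 2 0 2 1 0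
  · exact h1 1 0 2 1 1 1 2 0
  · exact h2 0 0 2 1 0 1 2 0
  · exact h1 0 0 1 1 0 1 1 0

theorem comp_mul {μ : P3} {d : ℕ} (hμ : μ.IsHomogeneous d) (t : P3) (n : ℕ) :
    ∃ t' : P3, homogeneousComponent n (μ * t) = μ * t' ∧
      (t' = 0 ∨ (d ≤ n ∧ t'.IsHomogeneous (n - d))) := by
  by_cases hd : d ≤ n
  · refine ⟨homogeneousComponent (n - d) t, ?_, Or.inr ⟨hd, homogeneousComponent_isHomogeneous _ _⟩⟩
    rw [mul_comm, homogeneousComponent_mul_of_hom hμ t hd, mul_comm]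
  · refine ⟨0, ?_, Or.inl rfl⟩
    rw [mul_zero]
    conv_lhs => rw [← sum_homogeneousComponent t, Finset.mul_sum, map_sum]
    refine Finset.sum_eq_zero fun i _ => ?_
    rw [homogeneousComponent_of_mem (hμ.mul (homogeneousComponent_isHomogeneous i t)), if_neg]
    omega

end Pool.Agent.Helper98.OS
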